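import Mathlib

/-!
# A 4-regular Ramanujan graph with `m(H) < 2 ^ 4`

Let `H` be the square of the cycle of length `16`: the vertices are the integers modulo `16`, and two
vertices are adjacent if their difference is `±1` or `±2`. We show that `H` is a Ramanujan graph of
degree `4` and that every connectivity code for `H` has at most `15` members.

Connectivity codes: let `C` be a code with `16` members. Only the three edges `{i, i+1}`, `{i, i+2}`,
`{i-1, i+1}` pass from the left to the right at the place between `i` and `i + 1`. So for each of the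
`16` places there are at least `16` ordered pairs of different members of `C` which agree on the three
edges there, and there are only `240` ordered pairs. Hence two members agree at two places, and their
symmetric difference has no edge between the two arcs of the circle.

Eigenvalues: let `A` be the adjacency matrix and `A x = λ x`. If the sum of the entries of `x` is not
zero then `λ = 4`. Otherwise `λ ^ 7 x = (A ^ 7 - 4 ^ 7 / 16 J) x`, and the sum of the squares of the
entries of this matrix is `31027968 < 12 ^ 7`; so `λ ^ 14 ≤ 12 ^ 7` and `|λ| ≤ 2 √3`.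
-/

set_option autoImplicit false

namespace Pool.Agent.Results.MP_7d4bc7_co.SquareOfCycleSixteen

open SimpleGraph
open scoped symmDiff

/-- A family `C` of spanning subgraphs of `H` such that the symmetric difference of any two distinct
members is connected. -/
def IsConnectivityCode {V : Type} (H : SimpleGraph V) (C : Finset (SimpleGraph V)) : Prop :=
  (∀ G ∈ C, G ≤ H) ∧ ∀ G₁ ∈ C, ∀ G₂ ∈ C, G₁ ≠ G₂ → (G₁ ∆ G₂).Connected

/-- `m(H)`: the largest size of a connectivity code for `H`. -/
noncomputable def m {V : Type} (H : SimpleGraph V) : ℕ :=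
  sSup {k | ∃ C : Finset (SimpleGraph V), IsConnectivityCode H C ∧ C.card = k}

/-- A connected `d`-regular graph all of whose eigenvalues `l` different from `d` (and from `-d` if
the graph is bipartite) satisfy `|l| ≤ 2 √(d - 1)`. -/
def IsRamanujan {V : Type} [Fintype V] [DecidableEq V] (H : SimpleGraph V) [DecidableRel H.Adj]
    (d : ℕ) : Prop :=
  H.Connected ∧ H.IsRegularOfDegree d ∧
    ∀ l : ℝ, Module.End.HasEigenvalue (Matrix.toLin' (H.adjMatrix ℝ)) l →
      l = d ∨ (H.IsBipartite ∧ l = -d) ∨ |l| ≤ 2 * Real.sqrt (d - 1)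

/-- The square of the cycle of length `16`. -/
def H16 : SimpleGraph (ZMod 16) := circulantGraph {1, 2}

instance : DecidableRel H16.Adj := fun u v =>
  decidable_of_iff (u ≠ v ∧ ((u - v = 1 ∨ u - v = 2) ∨ (v - u = 1 ∨ v - u = 2))) (by
    simp [H16])

theorem adj_iff (u v : ZMod 16) :
    H16.Adj u v ↔ v = u + 1 ∨ v = u - 1 ∨ v = u + 2 ∨ v = u - 2 := by
  revert u v
  decide

theorem connected : H16.Connected := by
  have h : ∀ n : ℕ, H16.Reachable 0 (n : ZMod 16) := by
    intro n
    induction n with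
    | zero => simp
    | succ n ih =>
      refine ih.trans (SimpleGraph.Adj.reachable ?_)
      rw [adj_iff]
      left
      push_cast
      rfl
  have : Nonempty (ZMod 16) := ⟨0⟩
  refine ⟨fun u v => ?_⟩
  have hu := h u.val
  have hv := h v.val
  rw [ZMod.natCast_zmod_val] at hu hv
  exact hu.symm.trans hv

theorem regular : H16.IsRegularOfDegree 4 := by
  intro v
  revert v
  decide

/-! ### eigenvalues -/

theorem mulVec_eq (x : ZMod 16 → ℝ) (i : ZMod 16) :
    (H16.adjMatrix ℝ).mulVec x i = x (i + 1) + x (i - 1) + x (i + 2) + x (i - 2) := by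
  rw [SimpleGraph.adjMatrix_mulVec_apply]
  have h : H16.neighborFinset i = {i + 1, i - 1, i + 2, i - 2} := by
    revert i
    decide
  rw [h]
  rw [Finset.sum_insert, Finset.sum_insert, Finset.sum_insert, Finset.sum_singleton]
  · ring
  · revert i; decide
  · revert i; decide
  · revert i; decide

/-- the circulant combination with coefficients `c` -/
def app (c : ZMod 16 → ℤ) (x : ZMod 16 → ℝ) (i : ZMod 16) : ℝ := ∑ k, (c k : ℝ) * x (i + k)

/-- one more factor `A` -/
def step (c : ZMod 16 → ℤ) (k : ZMod 16) : ℤ := c (k - 1) + c (k + 1) + c (k - 2) + c (k + 2)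

theorem app_step (c : ZMod 16 → ℤ) (x : ZMod 16 → ℝ) (l : ℝ)
    (hx : ∀ i, x (i + 1) + x (i - 1) + x (i + 2) + x (i - 2) = l * x i) (i : ZMod 16) :
    app (step c) x i = l * app c x i := by
  have e : ∀ a : ZMod 16, ∑ k, (c (k - a) : ℝ) * x (i + k) = ∑ k, (c k : ℝ) * x (i + k + a) := by
    intro a
    rw [← Equiv.sum_comp (Equiv.subRight a) (fun k => (c k : ℝ) * x (i + k + a))]
    refine Finset.sum_congr rfl fun k _ => ?_
    simp only [Equiv.subRight_apply]
    congr 2
    ring
  unfold app step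
  have h1 : ∑ k, ((c (k - 1) + c (k + 1) + c (k - 2) + c (k + 2) : ℤ) : ℝ) * x (i + k) =
      ∑ k, (c (k - 1) : ℝ) * x (i + k) + ∑ k, (c (k - (-1)) : ℝ) * x (i + k) +
      ∑ k, (c (k - 2) : ℝ) * x (i + k) + ∑ k, (c (k - (-2)) : ℝ) * x (i + k) := by
    rw [← Finset.sum_add_distrib, ← Finset.sum_add_distrib, ← Finset.sum_add_distrib]
    refine Finset.sum_congr rfl fun k _ => ?_
    simp only [sub_neg_eq_add]
    push_cast
    ring
  rw [h1, e 1, e (-1), e 2, e (-2), ← Finset.sum_add_distrib, ← Finset.sum_add_distrib,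
    ← Finset.sum_add_distrib, Finset.mul_sum]
  refine Finset.sum_congr rfl fun k _ => ?_
  have := hx (i + k)
  simp only [← sub_eq_add_neg]
  linear_combination (c k : ℝ) * this

def c0 : ZMod 16 → ℤ := ![1, 0, 0, 0, 0, 0, 0, 0, 0, 0, 0, 0, 0, 0, 0, 0]
def c1 : ZMod 16 → ℤ := ![0, 1, 1, 0, 0, 0, 0, 0, 0, 0, 0, 0, 0, 0, 1, 1]
def c2 : ZMod 16 → ℤ := ![4, 2, 1, 2, 1, 0, 0, 0, 0, 0, 0, 0, 1, 2, 1, 2]
def c3 : ZMod 16 → ℤ := ![6, 9, 9, 4, 3, 3, 1, 0, 0, 0, 1, 3, 3, 4, 9, 9]
def c4 : ZMod 16 → ℤ := ![36, 28, 22, 24, 17, 8, 6, 4, 2, 4, 6, 8, 17, 24, 22, 28]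
def c5 : ZMod 16 → ℤ := ![100, 110, 105, 75, 60, 51, 31, 20, 20, 20, 31, 51, 60, 75, 105, 110]
def c6 : ZMod 16 → ℤ := ![430, 390, 345, 326, 262, 186, 151, 122, 102, 122, 151, 186, 262, 326,
  345, 390]
def c7 : ZMod 16 → ℤ := ![1470, 1491, 1408, 1183, 1008, 861, 672, 561, 546, 561, 672, 861, 1008,
  1183, 1408, 1491]

theorem step_c7 : step (step (step (step (step (step (step c0)))))) = c7 := by
  have h1 : step c0 = c1 := funext (by decide)
  have h2 : step c1 = c2 := funext (by decide)
  have h3 : step c2 = c3 := funext (by decide)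
  have h4 : step c3 = c4 := funext (by decide)
  have h5 : step c4 = c5 := funext (by decide)
  have h6 : step c5 = c6 := funext (by decide)
  have h7 : step c6 = c7 := funext (by decide)
  rw [h1, h2, h3, h4, h5, h6, h7]

theorem app_c0 (x : ZMod 16 → ℝ) (i : ZMod 16) : app c0 x i = x i := by
  unfold app
  rw [Finset.sum_eq_single (0 : ZMod 16)]
  · simp [c0]
  · intro k _ hk
    have : c0 k = 0 := by
      revert k
      decide
    rw [this]
    simp
  · simp

theorem sum_c7 : ∑ k : ZMod 16, (c7 k - 1024) ^ 2 = 1939248 := by decide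

theorem eig_bound (l : ℝ) (h : Module.End.HasEigenvalue (Matrix.toLin' (H16.adjMatrix ℝ)) l) :
    l = 4 ∨ |l| ≤ 2 * Real.sqrt 3 := by
  obtain ⟨x, hx1⟩ := h.exists_hasEigenvector
  have hne := hx1.2
  have hx : ∀ i, x (i + 1) + x (i - 1) + x (i + 2) + x (i - 2) = l * x i := by
    intro i
    have h2 := congrFun hx1.apply_eq_smul i
    rw [Matrix.toLin'_apply, mulVec_eq] at h2
    simpa using h2
  by_cases hs : ∑ i, x i = 0
  · right
    have e : ∀ i, l ^ 7 * x i = ∑ k, ((c7 k - 1024 : ℤ) : ℝ) * x (i + k) := by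
      intro i
      have h3 : app c7 x i = l ^ 7 * x i := by
        rw [← step_c7, app_step _ x l hx, app_step _ x l hx, app_step _ x l hx,
          app_step _ x l hx, app_step _ x l hx, app_step _ x l hx, app_step _ x l hx, app_c0]
        ring
      have h4 : ∑ k, x (i + k) = 0 := by
        rw [← hs]
        exact Equiv.sum_comp (Equiv.addLeft i) x
      have h5 : ∑ k, ((c7 k - 1024 : ℤ) : ℝ) * x (i + k) =
          ∑ k, (c7 k : ℝ) * x (i + k) - 1024 * ∑ k, x (i + k) := by
        rw [Finset.mul_sum, ← Finset.sum_sub_distrib]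
        refine Finset.sum_congr rfl fun k _ => ?_
        push_cast
        ring
      rw [h5, h4, mul_zero, sub_zero, ← h3]
      rfl
    have hS : ∑ k : ZMod 16, (((c7 k - 1024 : ℤ) : ℝ)) ^ 2 = 1939248 := by
      exact_mod_cast sum_c7
    have h6 : ∀ i, (l ^ 7 * x i) ^ 2 ≤ 1939248 * ∑ k, x k ^ 2 := by
      intro i
      rw [e i, ← hS]
      refine (Finset.sum_mul_sq_le_sq_mul_sq _ _ _).trans (le_of_eq ?_)
      congr 1
      exact Equiv.sum_comp (Equiv.addLeft i) (fun k => x k ^ 2)
    have hpos : 0 < ∑ k, x k ^ 2 := by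
      obtain ⟨j, hj⟩ := Function.ne_iff.mp hne
      exact Finset.sum_pos' (fun i _ => sq_nonneg _) ⟨j, Finset.mem_univ _, by
        have : x j ≠ 0 := hj
        positivity⟩
    have h7 : l ^ 14 * ∑ k, x k ^ 2 ≤ 31027968 * ∑ k, x k ^ 2 := by
      have h8 := Finset.sum_le_sum (fun i (_ : i ∈ (Finset.univ : Finset (ZMod 16))) => h6 i)
      rw [Finset.sum_const, Finset.card_univ, ZMod.card] at h8
      have h9 : ∑ i, (l ^ 7 * x i) ^ 2 = l ^ 14 * ∑ k, x k ^ 2 := by
        rw [Finset.mul_sum]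
        refine Finset.sum_congr rfl fun k _ => ?_
        ring
      rw [h9] at h8
      refine h8.trans (le_of_eq ?_)
      rw [nsmul_eq_mul]
      norm_num
      ring
    have h10 : l ^ 14 ≤ 31027968 := le_of_mul_le_mul_right h7 hpos
    have h11 : l ^ 2 ≤ 12 := by
      by_contra hc
      push Not at hc
      have h12 : (12 : ℝ) ^ 7 < (l ^ 2) ^ 7 := pow_lt_pow_left₀ hc (by norm_num) (by norm_num)
      have h13 : (l ^ 2) ^ 7 = l ^ 14 := by ring
      rw [h13] at h12
      norm_num at h12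
      linarith
    have h14 : (2 * Real.sqrt 3) ^ 2 = 12 := by
      rw [mul_pow, Real.sq_sqrt (by norm_num)]
      norm_num
    exact abs_le_of_sq_le_sq (by rw [h14]; exact h11) (by positivity)
  · left
    have h3 : ∑ i, (x (i + 1) + x (i - 1) + x (i + 2) + x (i - 2)) = ∑ i, l * x i :=
      Finset.sum_congr rfl fun i _ => hx i
    rw [Finset.sum_add_distrib, Finset.sum_add_distrib, Finset.sum_add_distrib,
      ← Finset.mul_sum] at h3
    have t : ∀ a : ZMod 16, ∑ i, x (i + a) = ∑ i, x i := fun a =>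
      Equiv.sum_comp (Equiv.addRight a) x
    have t1 := t 1
    have t2 := t (-1)
    have t3 := t 2
    have t4 := t (-2)
    simp only [← sub_eq_add_neg] at t2 t4
    rw [t1, t2, t3, t4] at h3
    have h4 : (l - 4) * ∑ i, x i = 0 := by linarith
    rcases mul_eq_zero.1 h4 with h5 | h5
    · linarith
    · exact absurd h5 hs

theorem ramanujan : IsRamanujan H16 4 := by
  refine ⟨connected, regular, fun l hl => ?_⟩
  rcases eig_bound l hl with h | h
  · left
    rw [h]
    norm_num
  · right; right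
    refine h.trans (le_of_eq ?_)
    norm_num

/-! ### codes -/

open Classical in
/-- the three edges at the place `i` -/
noncomputable def place (i : ZMod 16) (G : SimpleGraph (ZMod 16)) : Bool × Bool × Bool :=
  (decide (G.Adj i (i + 1)), decide (G.Adj i (i + 2)), decide (G.Adj (i - 1) (i + 1)))

theorem arc (t a b : ZMod 16) (ht : t ≠ 0)
    (hb : b = a + 1 ∨ b = a - 1 ∨ b = a + 2 ∨ b = a - 2) (ha : a.val < t.val)
    (hbt : ¬ b.val < t.val) :
    (a = -1 ∧ b = 0) ∨ (a = 0 ∧ b = -1) ∨ (a = -1 ∧ b = 1) ∨ (a = 1 ∧ b = -1) ∨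
    (a = -2 ∧ b = 0) ∨ (a = 0 ∧ b = -2) ∨
    (a = t - 1 ∧ b = t) ∨ (a = t ∧ b = t - 1) ∨ (a = t - 1 ∧ b = t + 1) ∨
    (a = t + 1 ∧ b = t - 1) ∨ (a = t - 2 ∧ b = t) ∨ (a = t ∧ b = t - 2) := by
  have key : ∀ t a : ZMod 16, t ≠ 0 → a.val < t.val → ∀ b ∈ ({a + 1, a - 1, a + 2, a - 2} :
      Finset (ZMod 16)), ¬ b.val < t.val →
      (a = -1 ∧ b = 0) ∨ (a = 0 ∧ b = -1) ∨ (a = -1 ∧ b = 1) ∨ (a = 1 ∧ b = -1) ∨
      (a = -2 ∧ b = 0) ∨ (a = 0 ∧ b = -2) ∨
      (a = t - 1 ∧ b = t) ∨ (a = t ∧ b = t - 1) ∨ (a = t - 1 ∧ b = t + 1) ∨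
      (a = t + 1 ∧ b = t - 1) ∨ (a = t - 2 ∧ b = t) ∨ (a = t ∧ b = t - 2) := by
    decide
  exact key t a ht ha b (by simpa using hb) hbt

/-- Two subgraphs which agree at two places have a disconnected symmetric difference. -/
theorem not_connected (G₁ G₂ : SimpleGraph (ZMod 16)) (h₁ : G₁ ≤ H16) (h₂ : G₂ ≤ H16)
    (i j : ZMod 16) (hij : i ≠ j) (hi : place i G₁ = place i G₂) (hj : place j G₁ = place j G₂) :
    ¬ (G₁ ∆ G₂).Connected := by
  intro hc
  set D := G₁ ∆ G₂ with hD
  have hDadj : ∀ u v, D.Adj u v → H16.Adj u v ∧ ¬ (G₁.Adj u v ↔ G₂.Adj u v) := by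
    intro u v h
    rw [hD, symmDiff_def, SimpleGraph.sup_adj, SimpleGraph.sdiff_adj, SimpleGraph.sdiff_adj] at h
    rcases h with ⟨h, h'⟩ | ⟨h, h'⟩
    · exact ⟨h₁ h, fun e => h' (e.1 h)⟩
    · exact ⟨h₂ h, fun e => h' (e.2 h)⟩
  have hpl : ∀ k, place k G₁ = place k G₂ → ¬ D.Adj k (k + 1) ∧ ¬ D.Adj k (k + 2) ∧
      ¬ D.Adj (k - 1) (k + 1) := by
    intro k hk
    simp only [place, Prod.mk.injEq, decide_eq_decide] at hk
    exact ⟨fun h => (hDadj _ _ h).2 hk.1, fun h => (hDadj _ _ h).2 hk.2.1,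
      fun h => (hDadj _ _ h).2 hk.2.2⟩
  obtain ⟨a1, a2, a3⟩ := hpl i hi
  obtain ⟨b1, b2, b3⟩ := hpl j hj
  have ht : j - i ≠ 0 := sub_ne_zero.2 hij.symm
  -- no edge of `D` leaves the arc
  have hcut : ∀ u v, D.Adj u v → (u - (i + 1)).val < (j - i).val →
      (v - (i + 1)).val < (j - i).val := by
    intro u v huv hu
    by_contra hv
    have hH := (adj_iff u v).1 (hDadj u v huv).1
    have hb : v - (i + 1) = (u - (i + 1)) + 1 ∨ v - (i + 1) = (u - (i + 1)) - 1 ∨
        v - (i + 1) = (u - (i + 1)) + 2 ∨ v - (i + 1) = (u - (i + 1)) - 2 := by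
      rcases hH with h | h | h | h
      · left; rw [h]; ring
      · right; left; rw [h]; ring
      · right; right; left; rw [h]; ring
      · right; right; right; rw [h]; ring
    have hx : ∀ z w : ZMod 16, z - (i + 1) = w → z = i + 1 + w := by
      intro z w h
      rw [← h]; ring
    rcases arc (j - i) (u - (i + 1)) (v - (i + 1)) ht hb hu hv with
      ⟨p, q⟩ | ⟨p, q⟩ | ⟨p, q⟩ | ⟨p, q⟩ | ⟨p, q⟩ | ⟨p, q⟩ | ⟨p, q⟩ | ⟨p, q⟩ | ⟨p, q⟩ | ⟨p, q⟩ |
      ⟨p, q⟩ | ⟨p, q⟩ <;> (have p' := hx _ _ p; have q' := hx _ _ q)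
    · exact a1 (by convert huv using 1 <;> [rw [p']; rw [q']] <;> ring)
    · exact a1 (by convert huv.symm using 1 <;> [rw [q']; rw [p']] <;> ring)
    · exact a2 (by convert huv using 1 <;> [rw [p']; rw [q']] <;> ring)
    · exact a2 (by convert huv.symm using 1 <;> [rw [q']; rw [p']] <;> ring)
    · exact a3 (by convert huv using 1 <;> [rw [p']; rw [q']] <;> ring)
    · exact a3 (by convert huv.symm using 1 <;> [rw [q']; rw [p']] <;> ring)
    · exact b1 (by convert huv using 1 <;> [rw [p']; rw [q']] <;> ring)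
    · exact b1 (by convert huv.symm using 1 <;> [rw [q']; rw [p']] <;> ring)
    · exact b2 (by convert huv using 1 <;> [rw [p']; rw [q']] <;> ring)
    · exact b2 (by convert huv.symm using 1 <;> [rw [q']; rw [p']] <;> ring)
    · exact b3 (by convert huv using 1 <;> [rw [p']; rw [q']] <;> ring)
    · exact b3 (by convert huv.symm using 1 <;> [rw [q']; rw [p']] <;> ring)
  have hreach : ∀ u v, D.Reachable u v → (u - (i + 1)).val < (j - i).val →
      (v - (i + 1)).val < (j - i).val := by
    rintro u v ⟨w⟩ hu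
    induction w with
    | nil => exact hu
    | cons h _ ih => exact ih (hcut _ _ h hu)
  have h1 : ((i + 1) - (i + 1)).val < (j - i).val := by
    rw [sub_self, ZMod.val_zero]
    exact Nat.pos_of_ne_zero ((ZMod.val_eq_zero _).not.2 ht)
  have h2 := hreach _ (j + 1) (hc.preconnected (i + 1) (j + 1)) h1
  have h3 : j + 1 - (i + 1) = j - i := by ring
  rw [h3] at h2
  exact lt_irrefl _ h2

theorem card_le (C : Finset (SimpleGraph (ZMod 16))) (hC : IsConnectivityCode H16 C) :
    C.card ≤ 15 := by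
  classical
  by_contra hcard
  push Not at hcard
  obtain ⟨C', hC'sub, hC'card⟩ := Finset.exists_subset_card_eq (show 16 ≤ C.card by omega)
  have hC' : IsConnectivityCode H16 C' :=
    ⟨fun G hG => hC.1 G (hC'sub hG), fun G hG G' hG' => hC.2 G (hC'sub hG) G' (hC'sub hG')⟩
  -- the ordered pairs which agree at the place `i`
  let P : ZMod 16 → Finset (SimpleGraph (ZMod 16) × SimpleGraph (ZMod 16)) := fun i =>
    C'.offDiag.filter (fun p => place i p.1 = place i p.2)
  have hP : ∀ i, 16 ≤ (P i).card := by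
    intro i
    -- all ordered pairs
    have h1 : ((C' ×ˢ C').filter (fun p => place i p.1 = place i p.2)).card =
        ∑ b : Bool × Bool × Bool, (C'.filter (fun G => place i G = b)).card ^ 2 := by
      rw [Finset.card_eq_sum_card_fiberwise (f := fun p => place i p.1) (t := Finset.univ)
        (fun _ _ => Finset.mem_coe.2 (Finset.mem_univ _))]
      refine Finset.sum_congr rfl fun b _ => ?_
      rw [sq, ← Finset.card_product]
      congr 1
      ext p
      simp only [Finset.mem_filter, Finset.mem_product]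
      constructor
      · rintro ⟨⟨⟨h1, h2⟩, h3⟩, h4⟩
        exact ⟨⟨h1, h4⟩, h2, h3 ▸ h4⟩
      · rintro ⟨⟨h1, h4⟩, h2, h3⟩
        exact ⟨⟨⟨h1, h2⟩, h4.trans h3.symm⟩, h4⟩
    have h2 : ∑ b : Bool × Bool × Bool, (C'.filter (fun G => place i G = b)).card = 16 := by
      exact (Finset.card_eq_sum_card_fiberwise (f := place i) (t := Finset.univ)
        (fun _ _ => Finset.mem_coe.2 (Finset.mem_univ _))).symm.trans hC'card
    have h3 : 16 ^ 2 ≤ 8 * ∑ b : Bool × Bool × Bool,
        (C'.filter (fun G => place i G = b)).card ^ 2 := by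
      have := sq_sum_le_card_mul_sum_sq (s := (Finset.univ : Finset (Bool × Bool × Bool)))
        (f := fun b => ((C'.filter (fun G => place i G = b)).card : ℤ))
      have h5 : (Finset.univ : Finset (Bool × Bool × Bool)).card = 8 := by decide
      rw [h5] at this
      have h6 : (∑ b : Bool × Bool × Bool,
          ((C'.filter (fun G => place i G = b)).card : ℤ)) = 16 := by exact_mod_cast h2
      rw [h6] at this
      exact_mod_cast this
    have h4 : (C' ×ˢ C').filter (fun p => place i p.1 = place i p.2) ⊆ P i ∪ C'.diag := by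
      intro p hp
      rw [Finset.mem_filter, Finset.mem_product] at hp
      rw [Finset.mem_union, Finset.mem_filter, Finset.mem_offDiag, Finset.mem_diag]
      by_cases h : p.1 = p.2
      · exact Or.inr ⟨hp.1.1, h⟩
      · exact Or.inl ⟨⟨hp.1.1, hp.1.2, h⟩, hp.2⟩
    have h5 := (Finset.card_le_card h4).trans (Finset.card_union_le _ _)
    rw [h1, Finset.diag_card, hC'card] at h5
    omega
  have hsum : ∑ i : ZMod 16, (P i).card ≥ 256 := by
    calc (256 : ℕ) = ∑ _i : ZMod 16, 16 := by
          rw [Finset.sum_const, Finset.card_univ, ZMod.card]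
          norm_num
      _ ≤ _ := Finset.sum_le_sum fun i _ => hP i
  have hdisj : ∀ i ∈ (Finset.univ : Finset (ZMod 16)), ∀ j ∈ (Finset.univ : Finset (ZMod 16)),
      i ≠ j → Disjoint (P i) (P j) := by
    intro i _ j _ hij
    rw [Finset.disjoint_left]
    intro p hp hq
    rw [Finset.mem_filter, Finset.mem_offDiag] at hp hq
    exact not_connected p.1 p.2 (hC'.1 _ hp.1.1) (hC'.1 _ hp.1.2.1) i j hij hp.2 hq.2
      (hC'.2 _ hp.1.1 _ hp.1.2.1 hp.1.2.2)
  have hunion : (Finset.univ.biUnion P).card ≤ C'.offDiag.card := by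
    apply Finset.card_le_card
    intro p hp
    obtain ⟨i, -, hi⟩ := Finset.mem_biUnion.1 hp
    exact (Finset.mem_filter.1 hi).1
  rw [Finset.card_biUnion hdisj, Finset.offDiag_card, hC'card] at hunion
  omega

theorem m_le : m H16 ≤ 15 := by
  unfold m
  refine csSup_le' ?_
  rintro k ⟨C, hC, rfl⟩
  exact card_le C hC

/-- **Main result.** The square of the cycle of length `16` is a Ramanujan graph of degree `4`, and
its connectivity codes have at most `15 < 2 ^ 4` members. So Q1 is false. -/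
theorem result :
    (IsRamanujan H16 4 ∧ (∀ C, IsConnectivityCode H16 C → C.card ≤ 15) ∧ m H16 ≤ 15) ∧
    ¬ ∀ d : ℕ, 4 ≤ d → ∀ (n : ℕ) (H : SimpleGraph (Fin n)) [DecidableRel H.Adj],
        IsRamanujan H d → m H = 2 ^ d := by
  refine ⟨⟨ramanujan, card_le, m_le⟩, fun h => ?_⟩
  have h1 : m H16 = 2 ^ 4 :=
    @h 4 le_rfl 16 H16 (inferInstanceAs (DecidableRel H16.Adj)) ramanujan
  have h2 := m_le
  omega

end Pool.Agent.Results.MP_7d4bc7_co.SquareOfCycleSixteen
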